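import Pool.Agent.H.MP_44674b_co.E

namespace Pool.Agent.H.MP_a35cac_co

open Finset MP_44674b_co.D

def rr (x y : Fin 9) : Fin 3 := if x = y then 0 else if x.val / 3 = y.val / 3 then 1 else 2
def ix (p : I3 2) : ℕ := 9 * p.1.val + 3 * p.2.1.val + p.2.2.val
def pp (i j k : Fin 3) : ℕ := (0xf640101000a041001001 >>> (3 * ix (i, j, k))) % 8
def TN : ℕ := 0x6d80c0600d860c0180190080400000000000000040201000000000000000400000080000010000000280000000000000000001000000000000000000040000008000001000000040000000000000000000040000000000000000012400000000000000000000000008000002000000000000040000000000000008080000000000000000000000000208000200400000000008040000000001000000000000000000000000000200000040000000000000200000000049000000000000000000000000040000000000000000000000000040000000040000000000000000000000000009000000000000000000000000008000000040000000000000000000000000008000000000000000000000000001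
def TC : ℕ := 0x888888877888888888988888888888888898888888888888888888888888889888888888888888888888888888888888888888988888888888888888888888888888888888888888888888888888888888888888888888888888888888988888888888888888888888888888888888888888888888888888888888888888888888888898888888888888888888888888888888888888888888888888888888888888888888888888888888888888888888888888888888887888898888888888888888888889888888888888888888888888888888888888888888888888888888888888898888888888888888888888888888888888888888888888889888888888888888888888888888888888888888888888888888888888888888888888888888888888888888888888888888888888888889888888888888888888888888888888888888888888888888888888888888888888888888888888888888888888888888888888888888889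
def NN (p q : I3 2) : ℤ := (((TN >>> (3 * (27 * ix p + ix q))) % 8 : ℕ) : ℤ)
def CC (p q : I3 2) : ℤ := (((TC >>> (4 * (27 * ix p + ix q))) % 16 : ℕ) : ℤ) - 8
def ok (t : I3 2) : Bool := ix t ∈ [0, 4, 8, 10, 12, 13, 17, 20, 23, 24, 25, 26]
def QQ : Fin 3 → Fin 3 → ℤ := ![![1, 2, 6], ![1, 2, -3], ![1, -1, 0]]

set_option maxRecDepth 100000

lemma sch : IsScheme rr pp := ⟨by decide +kernel, by decide +kernel, by decide +kernel,
  by decide +kernel⟩
lemma h0 : ∀ x y z, ok (rr x z, rr x y, rr y z) = true := by decide +kernel
lemma h1 : ∀ p x y z, yy rr p x y z = NN p (rr x z, rr x y, rr y z) := by decide +kernel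
lemma h2 : ∀ p t : I3 2, ok t = true → ∑ q, CC p q * NN q t = if p = t then 1 else 0 := by
  decide +kernel
lemma qa : ∀ j k x y, ∑ u, QQ (rr x u) j * QQ (rr u y) k =
    if j = k then 9 * QQ (rr x y) j else 0 := by decide +kernel
lemma qb : ∀ x y, ∑ j, QQ (rr x y) j = if x = y then 9 else 0 := by decide +kernel
lemma qc : ∀ i k, ∑ j, QQ j i * QQ k j = if k = i then 9 else 0 := by decide +kernel

end Pool.Agent.H.MP_a35cac_co
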